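import Pool.Agent.Y580.LB.Stm

/-! The circular construction. -/

set_option autoImplicit false
open Finset

namespace Pool.Agent.Y878.LB

/-- the circular tournament -/
def D (m x y : ℕ) : Prop := (x < y ∧ y ≤ x + m) ∨ y + m < x

/-- sorted triples -/
def Srt (m a b c : ℕ) : Prop := a < b ∧ b < c ∧ b ≤ a + m ∧ c ≤ b + m ∧ a + m < c

instance (m a b c : ℕ) : Decidable (Srt m a b c) := by unfold Srt; infer_instance

/-- the 3-graph -/
def HH (n m : ℕ) : Finset (Finset (Fin n)) :=
  ((univ : Finset (Fin n × Fin n × Fin n)).filter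
    fun t => Srt m t.1.val t.2.1.val t.2.2.val).image fun t => {t.1, t.2.1, t.2.2}

theorem mem_HH {n m : ℕ} {e : Finset (Fin n)} : e ∈ HH n m ↔
    ∃ a b c : Fin n, Srt m a.val b.val c.val ∧ e = {a, b, c} := by
  unfold HH
  rw [mem_image]
  constructor
  · rintro ⟨⟨a, b, c⟩, h, rfl⟩
    exact ⟨a, b, c, (mem_filter.mp h).2, rfl⟩
  · rintro ⟨a, b, c, h, rfl⟩
    exact ⟨(a, b, c), mem_filter.mpr ⟨mem_univ _, h⟩, rfl⟩

theorem card_three {n m : ℕ} {e : Finset (Fin n)} (he : e ∈ HH n m) : e.card = 3 := by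
  obtain ⟨a, b, c, h, rfl⟩ := mem_HH.mp he
  obtain ⟨h1, h2, -⟩ := h
  rw [card_eq_three]
  refine ⟨a, b, c, ?_, ?_, ?_, rfl⟩
  · intro h; rw [h] at h1; exact absurd h1 (lt_irrefl _)
  · intro h; rw [h] at h1; omega
  · intro h; rw [h] at h2; exact absurd h2 (lt_irrefl _)

theorem cyc {n m : ℕ} {x y z : Fin n} (h : ({x, y, z} : Finset (Fin n)) ∈ HH n m) :
    (D m x y ∧ D m y z ∧ D m z x) ∨ (D m y x ∧ D m z y ∧ D m x z) := by
  have h3 := card_three h
  have hxy : x.val ≠ y.val := by
    intro e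
    have e' : x = y := Fin.ext e
    rw [e', insert_eq_of_mem (mem_insert_self _ _)] at h3
    have := card_le_two (a := y) (b := z)
    omega
  have hxz : x.val ≠ z.val := by
    intro e
    have e' : x = z := Fin.ext e
    rw [e', insert_comm, pair_eq_singleton] at h3
    have := card_le_two (a := y) (b := z)
    omega
  have hyz : y.val ≠ z.val := by
    intro e
    have e' : y = z := Fin.ext e
    rw [e', pair_eq_singleton] at h3
    have := card_le_two (a := x) (b := z)
    omega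
  obtain ⟨a, b, c, hs, he⟩ := mem_HH.mp h
  have hx : x.val = a.val ∨ x.val = b.val ∨ x.val = c.val := by
    have : x ∈ ({a, b, c} : Finset (Fin n)) := by rw [← he]; simp
    simp only [mem_insert, mem_singleton] at this
    rcases this with h | h | h <;> simp [h]
  have hy : y.val = a.val ∨ y.val = b.val ∨ y.val = c.val := by
    have : y ∈ ({a, b, c} : Finset (Fin n)) := by rw [← he]; simp
    simp only [mem_insert, mem_singleton] at this
    rcases this with h | h | h <;> simp [h]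
  have hz : z.val = a.val ∨ z.val = b.val ∨ z.val = c.val := by
    have : z ∈ ({a, b, c} : Finset (Fin n)) := by rw [← he]; simp
    simp only [mem_insert, mem_singleton] at this
    rcases this with h | h | h <;> simp [h]
  unfold Srt at hs
  unfold D
  rcases hx with hx | hx | hx <;> rcases hy with hy | hy | hy <;> rcases hz with hz | hz | hz <;>
    omega

theorem not_both {m x y : ℕ} (h1 : D m x y) (h2 : D m y x) : False := by
  unfold D at h1 h2
  omega

theorem trans_out {m n p x y z : ℕ} (hn : n ≤ 2 * m + 2) (hp : p < n) (hx : x < n) (hy : y < n)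
    (hz : z < n) (h1 : D m p x) (h2 : D m p y) (h3 : D m p z) (h4 : D m x y) (h5 : D m y z)
    (h6 : D m z x) : False := by
  unfold D at *
  omega

theorem trans_in {m n p x y z : ℕ} (hn : n ≤ 2 * m + 2) (hp : p < n) (hx : x < n) (hy : y < n)
    (hz : z < n) (h1 : D m x p) (h2 : D m y p) (h3 : D m z p) (h4 : D m x y) (h5 : D m y z)
    (h6 : D m z x) : False := by
  unfold D at *
  omega

theorem good {n m : ℕ} (hn : n ≤ 2 * m + 2) : Pool.Agent.Y580.LB.Good n (HH n m) := by
  refine ⟨fun e he => card_three he, ?_, ?_⟩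
  · rintro ⟨f, -, h0, h1, h2, h3⟩
    have c0 := cyc h0
    have c1 := cyc h1
    have c2 := cyc h2
    have c3 := cyc h3
    have l0 := (f 0).isLt
    have l1 := (f 1).isLt
    have l2 := (f 2).isLt
    have l3 := (f 3).isLt
    have l4 := (f 4).isLt
    generalize (f 0).val = x0 at *
    generalize (f 1).val = x1 at *
    generalize (f 2).val = x2 at *
    generalize (f 3).val = x3 at *
    generalize (f 4).val = x4 at *
    rcases c1 with ⟨a1, b1, d1⟩ | ⟨a1, b1, d1⟩
    · rcases c2 with ⟨a2, b2, d2⟩ | ⟨a2, b2, d2⟩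
      · rcases c3 with ⟨a3, b3, d3⟩ | ⟨a3, b3, d3⟩
        · rcases c0 with ⟨a0, b0, d0⟩ | ⟨a0, b0, d0⟩
          · exact trans_out hn l4 l0 l1 l2 d1 d2 d3 a0 b0 d0
          · exact trans_out hn l4 l0 l2 l1 d1 d3 d2 d0 b0 a0
        · exact not_both b1 b3
      · exact not_both b1 b2
    · rcases c2 with ⟨a2, b2, d2⟩ | ⟨a2, b2, d2⟩
      · exact not_both b2 b1
      · rcases c3 with ⟨a3, b3, d3⟩ | ⟨a3, b3, d3⟩
        · exact not_both b3 b1
        · rcases c0 with ⟨a0, b0, d0⟩ | ⟨a0, b0, d0⟩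
          · exact trans_out hn l3 l0 l1 l2 a1 a2 a3 a0 b0 d0
          · exact trans_out hn l3 l0 l2 l1 a1 a3 a2 d0 b0 a0
  · rintro v k - hk ⟨c, -, -, hc⟩
    classical
    let f : Fin k → ZMod 2 := fun i => if D m v (c i) then 1 else 0
    have hf : ∀ i, f (finRotate k i) = f i + 1 := by
      intro i
      have h := cyc (hc i)
      simp only [f]
      rcases h with ⟨h1, h2, h3⟩ | ⟨h1, h2, h3⟩
      · rw [if_neg (fun h => not_both h h3), if_pos h1]; rfl
      · rw [if_pos h3, if_neg (fun h => not_both h h1)]; rfl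
    have h1 : ∑ i, f (finRotate k i) = ∑ i, f i := Equiv.sum_comp (finRotate k) f
    simp only [hf, sum_add_distrib, sum_const, card_univ, Fintype.card_fin] at h1
    have h2 : (k : ZMod 2) = 0 := by simpa using h1
    rw [ZMod.natCast_eq_zero_iff] at h2
    obtain ⟨j, hj⟩ := hk
    omega

theorem count {n m r : ℕ} (hn : n = 2 * m + 1 + r) :
    ∑ j ∈ range m, (j + 1 + r) * (j + 1) ≤ (HH n m).card := by
  let T : Finset (Σ _ : ℕ, ℕ × ℕ) := (range m).sigma fun j => range (j + 1 + r) ×ˢ range (j + 1)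
  have hT : T.card = ∑ j ∈ range m, (j + 1 + r) * (j + 1) := by
    rw [card_sigma]
    exact sum_congr rfl fun j _ => by rw [card_product, card_range, card_range]
  rw [← hT]
  have hmem : ∀ t ∈ T, t.1 < m ∧ t.2.1 < t.1 + 1 + r ∧ t.2.2 < t.1 + 1 := by
    intro t ht
    obtain ⟨h1, h2⟩ := mem_sigma.mp ht
    obtain ⟨h3, h4⟩ := mem_product.mp h2
    exact ⟨mem_range.mp h1, mem_range.mp h3, mem_range.mp h4⟩
  rcases Nat.eq_zero_or_pos n with h0 | hpos
  · omega
  let F : ℕ → Fin n := fun x => ⟨x % n, Nat.mod_lt _ hpos⟩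
  have hF : ∀ x, x < n → (F x).val = x := fun x hx => Nat.mod_eq_of_lt hx
  refine card_le_card_of_injOn
    (fun t => {F t.2.1, F (t.2.1 + (m - t.1) + t.2.2), F (t.2.1 + (2 * m - t.1))}) ?_ ?_
  · intro t ht
    obtain ⟨h1, h2, h3⟩ := hmem t ht
    refine mem_coe.mpr (mem_HH.mpr ⟨_, _, _, ?_, rfl⟩)
    rw [hF _ (by omega), hF _ (by omega), hF _ (by omega)]
    unfold Srt
    omega
  · intro t ht t' ht' he
    obtain ⟨h1, h2, h3⟩ := hmem t ht
    obtain ⟨h1', h2', h3'⟩ := hmem t' ht'
    simp only at he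
    have e1 := hF t.2.1 (by omega)
    have e2 := hF (t.2.1 + (m - t.1) + t.2.2) (by omega)
    have e3 := hF (t.2.1 + (2 * m - t.1)) (by omega)
    have e1' := hF t'.2.1 (by omega)
    have e2' := hF (t'.2.1 + (m - t'.1) + t'.2.2) (by omega)
    have e3' := hF (t'.2.1 + (2 * m - t'.1)) (by omega)
    have k1 : F t.2.1 ∈ ({F t'.2.1, F (t'.2.1 + (m - t'.1) + t'.2.2),
        F (t'.2.1 + (2 * m - t'.1))} : Finset (Fin n)) := by rw [← he]; simp
    have k2 : F (t.2.1 + (m - t.1) + t.2.2) ∈ ({F t'.2.1, F (t'.2.1 + (m - t'.1) + t'.2.2),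
        F (t'.2.1 + (2 * m - t'.1))} : Finset (Fin n)) := by rw [← he]; simp
    have k3 : F (t.2.1 + (2 * m - t.1)) ∈ ({F t'.2.1, F (t'.2.1 + (m - t'.1) + t'.2.2),
        F (t'.2.1 + (2 * m - t'.1))} : Finset (Fin n)) := by rw [← he]; simp
    simp only [mem_insert, mem_singleton, Fin.ext_iff, e1, e2, e3, e1', e2', e3'] at k1 k2 k3
    obtain ⟨j, a, i⟩ := t
    obtain ⟨j', a', i'⟩ := t'
    simp only at *
    have q1 : a = a' := by omega
    have q2 : j = j' := by omega
    have q3 : i = i' := by omega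
    subst q1 q2 q3
    rfl

theorem choose_odd (m : ℕ) : (2 * m + 1).choose 3 ≤ 4 * ∑ j ∈ range m, (j + 1 + 0) * (j + 1) := by
  induction m with
  | zero => decide
  | succ m ih =>
    have e : 2 * (m + 1) + 1 = (2 * m + 1) + 1 + 1 := by ring
    rw [e, Nat.choose_succ_succ' (2 * m + 1 + 1) 2, Nat.choose_succ_succ' (2 * m + 1) 2,
      Nat.choose_succ_succ' (2 * m + 1) 1, Nat.choose_one_right, sum_range_succ]
    have h2 : 2 * (2 * m + 1).choose 2 = (2 * m + 1) * (2 * m) := by
      have := Nat.triangle_succ (2 * m)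
      have h := Nat.choose_two_right (2 * m + 1)
      rw [h, Nat.add_sub_cancel]
      have hd : 2 ∣ (2 * m + 1) * (2 * m) := ⟨(2 * m + 1) * m, by ring⟩
      exact Nat.mul_div_cancel' hd
    nlinarith

theorem choose_even (m : ℕ) : (2 * m + 2).choose 3 ≤ 4 * ∑ j ∈ range m, (j + 1 + 1) * (j + 1) := by
  induction m with
  | zero => decide
  | succ m ih =>
    have e : 2 * (m + 1) + 2 = (2 * m + 2) + 1 + 1 := by ring
    rw [e, Nat.choose_succ_succ' (2 * m + 2 + 1) 2, Nat.choose_succ_succ' (2 * m + 2) 2,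
      Nat.choose_succ_succ' (2 * m + 2) 1, Nat.choose_one_right, sum_range_succ]
    have h2 : 2 * (2 * m + 2).choose 2 = (2 * m + 2) * (2 * m + 1) := by
      have h := Nat.choose_two_right (2 * m + 2)
      rw [h, show 2 * m + 2 - 1 = 2 * m + 1 by omega]
      have hd : 2 ∣ (2 * m + 2) * (2 * m + 1) := ⟨(m + 1) * (2 * m + 1), by ring⟩
      exact Nat.mul_div_cancel' hd
    nlinarith

theorem low : Pool.Agent.Y580.LB.S_LOW := by
  intro n
  rcases Nat.eq_zero_or_pos n with h0 | hpos
  · subst h0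
    exact ⟨HH 0 0, good (by omega), by simp⟩
  · obtain ⟨m, hm⟩ : ∃ m, n = 2 * m + 1 ∨ n = 2 * m + 2 := ⟨(n - 1) / 2, by omega⟩
    rcases hm with h | h
    · refine ⟨HH n m, good (by omega), ?_⟩
      have h1 := count (n := n) (m := m) (r := 0) (by omega)
      have h2 := choose_odd m
      rw [← h] at h2
      omega
    · refine ⟨HH n m, good (by omega), ?_⟩
      have h1 := count (n := n) (m := m) (r := 1) (by omega)
      have h2 := choose_even m
      rw [← h] at h2
      omega

end Pool.Agent.Y878.LB
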